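import Mathlib.Geometry.Manifold.IntegralCurve.Basic
import Mathlib.Geometry.Manifold.Instances.Real
import Mathlib.Analysis.Complex.Basic

/-!
Liouville manifolds of finite type, Liouville homotopies, Weinstein structures, stabilisation.
-/

open scoped Manifold ContDiff Topology
open Set

namespace Pool.Agent.MP_6d695c_gt

noncomputable section

variable {E : Type} [NormedAddCommGroup E] [NormedSpace ℝ E] {H : Type} [TopologicalSpace H]
  (I : ModelWithCorners ℝ E H) {M : Type} [TopologicalSpace M] [ChartedSpace H M]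

/-- A field of covectors. -/
abbrev OneForm (M : Type) [TopologicalSpace M] [ChartedSpace H M] : Type :=
  ∀ x : M, TangentSpace I x →L[ℝ] ℝ

/-- A field of tangent vectors. -/
abbrev VField (M : Type) [TopologicalSpace M] [ChartedSpace H M] : Type :=
  ∀ x : M, TangentSpace I x

/-- The one-form `l` read in the chart at `p` (pull-back by the inverse chart). -/
def formIn (l : OneForm I M) (p : M) (y : E) : E →L[ℝ] ℝ :=
  (l ((extChartAt I p).symm y)).comp (mfderiv 𝓘(ℝ, E) I (extChartAt I p).symm y)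

/-- The vector `Z x` read in the chart at `p`. -/
def fieldIn (Z : VField I M) (p x : M) : E :=
  mfderiv I 𝓘(ℝ, E) (extChartAt I p) x (Z x)

/-- The function `φ` read in the chart at `p`. -/
def funIn (φ : M → ℝ) (p : M) (y : E) : ℝ := φ ((extChartAt I p).symm y)

/-- The derivative of `φ` at `x` in the direction `v`. -/
def der (φ : M → ℝ) (x : M) (v : TangentSpace I x) : ℝ := mfderiv I 𝓘(ℝ, ℝ) φ x v

/-- The exterior derivative `dl` at `x`, computed in the chart at `x`. -/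
def dForm (l : OneForm I M) (x : M) (u v : E) : ℝ :=
  fderiv ℝ (formIn I l x) (extChartAt I x x) u v - fderiv ℝ (formIn I l x) (extChartAt I x x) v u

/-- `l` is smooth, `dl` is nondegenerate, `Z` is the Liouville field (`ι_Z dl = l`), and `Z` is
complete. -/
structure IsLiouville (l : OneForm I M) (Z : VField I M) : Prop where
  smooth : ∀ p, ContDiffOn ℝ ∞ (formIn I l p) (extChartAt I p).target
  nondeg : ∀ (x : M) (u : E), (∀ v, dForm I l x u v = 0) → u = 0
  dual : ∀ (x : M) (v : E), dForm I l x (Z x) v = l x v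
  complete : ∀ x, ∃ γ : ℝ → M, γ 0 = x ∧ IsMIntegralCurve γ Z

/-- A smooth function with compact sublevel sets. -/
def Exhausting (φ : M → ℝ) : Prop :=
  ContMDiff I 𝓘(ℝ, ℝ) ∞ φ ∧ ∀ c : ℝ, IsCompact {x | φ x ≤ c}

/-- A Liouville manifold of finite type. -/
def LiouvilleMfd (l : OneForm I M) : Prop :=
  ∃ (Z : VField I M) (φ : M → ℝ) (K : Set M), IsLiouville I l Z ∧ Exhausting I φ ∧ IsCompact K ∧
    ∀ x ∉ K, 0 < der I φ x (Z x)

/-- A smooth family of Liouville structures from `l₀` to `l₁`, of finite type with one exhausting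
function and one compact set for all times. -/
def Homotopic (l₀ l₁ : OneForm I M) : Prop :=
  ∃ (L : ℝ → OneForm I M) (Z : ℝ → VField I M) (φ : M → ℝ) (K : Set M),
    L 0 = l₀ ∧ L 1 = l₁ ∧
    (∀ p, ContDiffOn ℝ ∞ (fun q : ℝ × E => formIn I (L q.1) p q.2)
      (Icc 0 1 ×ˢ (extChartAt I p).target)) ∧
    (∀ t ∈ Icc (0 : ℝ) 1, IsLiouville I (L t) (Z t)) ∧ Exhausting I φ ∧ IsCompact K ∧
    ∀ t ∈ Icc (0 : ℝ) 1, ∀ x ∉ K, 0 < der I φ x (Z t x)

/-- Every critical point has a nondegenerate Hessian. -/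
def Morse (φ : M → ℝ) : Prop :=
  ∀ p : M, (∀ v, der I φ p v = 0) → ∀ u : E,
    (∀ v, fderiv ℝ (fderiv ℝ (funIn I φ p)) (extChartAt I p p) u v = 0) → u = 0

/-- `Z · φ ≥ δ (|Z|² + |dφ|²)` near every point, with the norms of the chart at that point. -/
def GradLike (Z : VField I M) (φ : M → ℝ) : Prop :=
  ∀ p : M, ∃ δ : ℝ, 0 < δ ∧ ∀ᶠ x in 𝓝 p,
    δ * (‖fieldIn I Z p x‖ ^ 2 + ‖fderiv ℝ (funIn I φ p) (extChartAt I p x)‖ ^ 2) ≤ der I φ x (Z x)

/-- A Weinstein manifold: the Liouville field is gradient-like for an exhausting Morse function. -/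
def WeinsteinMfd (l : OneForm I M) : Prop :=
  LiouvilleMfd I l ∧ ∃ (Z : VField I M) (φ : M → ℝ),
    IsLiouville I l Z ∧ Exhausting I φ ∧ Morse I φ ∧ GradLike I Z φ

/-- The radial Liouville form `½ ∑ (x dy - y dx)` of `ℂ^k`. -/
def radial {ι : Type} [Fintype ι] (z : ι → ℂ) : (ι → ℂ) →L[ℝ] ℝ :=
  ∑ i, (((z i).re / 2) • Complex.imCLM.comp (ContinuousLinearMap.proj (R := ℝ) i) -
    ((z i).im / 2) • Complex.reCLM.comp (ContinuousLinearMap.proj (R := ℝ) i))

/-- The form `l + ½ ∑ (x dy - y dx)` on `M × ℂ^k`. -/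
def stab (l : OneForm I M) (k : ℕ) :
    OneForm (I.prod 𝓘(ℝ, Fin k → ℂ)) (M × (Fin k → ℂ)) := fun p =>
  ((l p.1).comp (ContinuousLinearMap.fst ℝ E (Fin k → ℂ)) +
    (radial p.2).comp (ContinuousLinearMap.snd ℝ E (Fin k → ℂ)) : E × (Fin k → ℂ) →L[ℝ] ℝ)

/-- Every Liouville manifold of finite type is stably Liouville homotopic to a Weinstein
manifold. -/
def StablyWeinstein : Prop :=
  ∀ (n : ℕ) (W : Type) [TopologicalSpace W] [ChartedSpace (EuclideanSpace ℝ (Fin (2 * n))) W]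
    [IsManifold (𝓡 (2 * n)) ∞ W] [T2Space W] (l : OneForm (𝓡 (2 * n)) W),
    LiouvilleMfd (𝓡 (2 * n)) l → ∃ k₀ : ℕ, ∀ k ≥ k₀,
      ∃ l' : OneForm ((𝓡 (2 * n)).prod 𝓘(ℝ, Fin k → ℂ)) (W × (Fin k → ℂ)),
        Homotopic _ (stab _ l k) l' ∧ WeinsteinMfd _ l'

end

end Pool.Agent.MP_6d695c_gt
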